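import Pool.Agent.Lib.MP_2eed13_lc.LCA.Base

/-!
# Module DIGIT: register machines are simulated by sweeping machines
-/

set_option autoImplicit false

namespace Pool.Agent.Lib.MP_2eed13_lc.LCA.H38

open Finset

section

variable (G : Goto) (b R : ℕ)

/-- the contents of a data cell -/
abbrev DD : Type := (Fin R → Fin b) × Bool

/-- the digit of the register of `l` -/
def dg (hR : ∀ l, G.reg l < R) (l : G.L) (d : DD b R) : ℕ := (d.1 ⟨G.reg l, hR l⟩ : ℕ)

/-- the cell contributes zero to the register of `l` -/
def cellz (hR : ∀ l, G.reg l < R) (l : G.L) (d : DD b R) : Bool :=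
  if G.reg l = 0 then !d.2 else decide (dg G b R hR l d = 0)

/-- the new carry -/
def passC (hR : ∀ l, G.reg l < R) (l : G.L) (c : Bool) (d : DD b R) : Bool :=
  match G.kind l with
  | Kind.test => c
  | Kind.inc => c && decide (dg G b R hR l d = b - 1)
  | Kind.dec => c && cellz G b R hR l d

/-- the new digit -/
def newdg (hR : ∀ l, G.reg l < R) (l : G.L) (c : Bool) (d : DD b R) : ℕ :=
  match G.kind l with
  | Kind.test => dg G b R hR l d
  | Kind.inc => if c then (if dg G b R hR l d = b - 1 then 0 else dg G b R hR l d + 1)
      else dg G b R hR l d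
  | Kind.dec => if c then (if dg G b R hR l d = 0 then b - 1 else dg G b R hR l d - 1)
      else dg G b R hR l d

/-- the new contents of a data cell -/
def passD (hb : 2 ≤ b) (hR : ∀ l, G.reg l < R) (l : G.L) (c : Bool) (d : DD b R) : DD b R :=
  if G.reg l = 0 then (d.1, match G.kind l with
    | Kind.dec => d.2 && !c
    | _ => d.2)
  else (Function.update d.1 ⟨G.reg l, hR l⟩
    ⟨newdg G b R hR l c d % b, Nat.mod_lt _ (by omega)⟩, d.2)

/-- label after the instruction -/
def labF (l0 : G.L) : Option (G.L × Bool × Bool) → G.L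
  | none => l0
  | some (l, _, z) => G.next l z

/-- the sweeping machine -/
def mach (hb : 2 ≤ b) (hR : ∀ l, G.reg l < R) (l0 : G.L) : Sweep where
  S := Option (G.L × Bool × Bool)
  D := DD b R
  finS := by
    have := G.finL
    infer_instance
  finD := inferInstance
  pass := fun s d => match s with
    | none => (none, d)
    | some (l, c, z) => (some (l, passC G b R hR l c d, z && cellz G b R hR l d),
        passD G b R hb hR l c d)
  turn := fun s => some (labF G l0 s, true, true)
  s0 := none
  d0 := (fun _ => ⟨0, by omega⟩, true)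

/-- the carry before data cell `k` -/
def carry (hR : ∀ l, G.reg l < R) (l : G.L) (d : ℕ → DD b R) : ℕ → Bool
  | 0 => true
  | k + 1 => passC G b R hR l (carry hR l d k) (d k)

/-- the zero flag before data cell `k` -/
def zfl (hR : ∀ l, G.reg l < R) (l : G.L) (d : ℕ → DD b R) : ℕ → Bool
  | 0 => true
  | k + 1 => zfl hR l d k && cellz G b R hR l (d k)

theorem sig_eq (hb : 2 ≤ b) (hR : ∀ l, G.reg l < R) (l0 : G.L) (s : Option (G.L × Bool × Bool)) (d : ℕ → DD b R) (k : ℕ) :
    (mach G b R hb hR l0).sig s d k =
      some (labF G l0 s, carry G b R hR (labF G l0 s) d k, zfl G b R hR (labF G l0 s) d k) := by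
  induction k with
  | zero => rfl
  | succ k ih =>
    show ((mach G b R hb hR l0).pass ((mach G b R hb hR l0).sig s d k) (d k)).1 = _
    rw [ih]
    rfl

theorem round_eq (hb : 2 ≤ b) (hR : ∀ l, G.reg l < R) (l0 : G.L) (n : ℕ) (s : Option (G.L × Bool × Bool)) (d : ℕ → DD b R) :
    (mach G b R hb hR l0).round n (s, d) =
      (some (labF G l0 s, carry G b R hR (labF G l0 s) d n, zfl G b R hR (labF G l0 s) d n),
        fun k => if k < n then passD G b R hb hR (labF G l0 s)
          (carry G b R hR (labF G l0 s) d k) (d k) else d k) := by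
  unfold Sweep.round
  refine Prod.ext ?_ ?_
  · exact sig_eq G b R hb hR l0 s d n
  · funext k
    show (if k < n then ((mach G b R hb hR l0).pass ((mach G b R hb hR l0).sig s d k) (d k)).2
      else d k) = _
    rw [sig_eq]
    rfl

/-- the invariant -/
structure Inv (n : ℕ) (σ : ℕ → ℕ) (d : ℕ → DD b R) : Prop where
  le : σ 0 ≤ n
  mark : ∀ k, k < n → ((d k).2 = true ↔ n ≤ k + σ 0)
  digit : ∀ (i : Fin R), (i : ℕ) ≠ 0 → σ i = ∑ k ∈ range n, ((d k).1 i : ℕ) * b ^ k

variable {G b R}

/-- digit sums of the register of `l` -/
theorem digit_lt_pow (hb : 2 ≤ b) (f : ℕ → ℕ) (hf : ∀ k, f k < b) (n : ℕ) :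
    ∑ k ∈ range n, f k * b ^ k < b ^ n := by
  induction n with
  | zero => simp
  | succ n ih =>
    rw [sum_range_succ, pow_succ]
    have h1 := hf n
    have h2 : (f n + 1) * b ^ n ≤ b * b ^ n := Nat.mul_le_mul_right _ h1
    nlinarith

theorem sum_eq_zero_iff' (_hb : 2 ≤ b) (f : ℕ → ℕ) (n : ℕ) :
    ∑ k ∈ range n, f k * b ^ k = 0 ↔ ∀ k, k < n → f k = 0 := by
  rw [Finset.sum_eq_zero_iff]
  have hpos : ∀ k, b ^ k ≠ 0 := fun k => pow_ne_zero _ (by omega)
  simp only [Finset.mem_range, Nat.mul_eq_zero, hpos, or_false]

theorem zfl_iff (hR : ∀ l, G.reg l < R) (l : G.L) (d : ℕ → DD b R) (n : ℕ) :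
    zfl G b R hR l d n = true ↔ ∀ k, k < n → cellz G b R hR l (d k) = true := by
  induction n with
  | zero => simp [zfl]
  | succ n ih =>
    simp only [zfl, Bool.and_eq_true, ih]
    constructor
    · rintro ⟨h1, h2⟩ k hk
      rcases Nat.lt_succ_iff_lt_or_eq.mp hk with h | rfl
      · exact h1 k h
      · exact h2
    · intro h
      exact ⟨fun k hk => h k (by omega), h n (by omega)⟩

/-- the zero flag is correct -/
theorem zfl_eq (hb : 2 ≤ b) (hR : ∀ l, G.reg l < R) (l : G.L) {n : ℕ} (hn : 1 ≤ n) {σ : ℕ → ℕ}
    {d : ℕ → DD b R} (h : Inv b R n σ d) :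
    zfl G b R hR l d n = decide (σ (G.reg l) = 0) := by
  rw [Bool.eq_iff_iff, zfl_iff, decide_eq_true_iff]
  by_cases h0 : G.reg l = 0
  · rw [h0]
    simp only [cellz, h0, if_true, Bool.not_eq_true']
    constructor
    · intro h1
      by_contra h2
      have h3 := h1 (n - 1) (by omega)
      have h4 := (h.mark (n - 1) (by omega)).mpr (by omega)
      rw [h3] at h4
      exact absurd h4 (by simp)
    · intro h1 k hk
      have h2 := h.mark k hk
      rw [h1] at h2
      by_contra h3
      rw [Bool.not_eq_false] at h3
      have := h2.mp h3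
      omega
  · simp only [cellz, h0, if_false, decide_eq_true_iff]
    have h1 := h.digit ⟨G.reg l, hR l⟩ h0
    have h2 := sum_eq_zero_iff' hb (fun k => ((d k).1 ⟨G.reg l, hR l⟩ : ℕ)) n
    rw [← h1] at h2
    exact h2.symm

theorem newdg_lt (hb : 2 ≤ b) (hR : ∀ l, G.reg l < R) (l : G.L) (c : Bool) (d : DD b R) :
    newdg G b R hR l c d < b := by
  have h1 : dg G b R hR l d < b := (d.1 ⟨G.reg l, hR l⟩).2
  unfold newdg
  cases G.kind l
  · exact h1
  · show (if c = true then _ else _) < b
    split_ifs <;> omega
  · show (if c = true then _ else _) < b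
    split_ifs <;> omega

/-- the new digits -/
theorem passD_digit (hb : 2 ≤ b) (hR : ∀ l, G.reg l < R) (l : G.L) (c : Bool) (d : DD b R)
    (i : Fin R) (hi : (i : ℕ) ≠ 0) :
    ((passD G b R hb hR l c d).1 i : ℕ) =
      if (i : ℕ) = G.reg l then newdg G b R hR l c d else (d.1 i : ℕ) := by
  unfold passD
  by_cases h0 : G.reg l = 0
  · rw [if_pos h0, if_neg (by rw [h0]; exact hi)]
  · rw [if_neg h0]
    by_cases h1 : (i : ℕ) = G.reg l
    · have h2 : i = ⟨G.reg l, hR l⟩ := Fin.ext h1
      rw [if_pos h1, h2]
      simp only [Function.update_self]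
      exact Nat.mod_eq_of_lt (newdg_lt hb hR l c d)
    · have h2 : i ≠ ⟨G.reg l, hR l⟩ := fun h => h1 (congrArg Fin.val h)
      rw [if_neg h1]
      simp only [Function.update_of_ne h2]

theorem passD_mark (hb : 2 ≤ b) (hR : ∀ l, G.reg l < R) (l : G.L) (c : Bool) (d : DD b R)
    (h0 : G.reg l ≠ 0) : (passD G b R hb hR l c d).2 = d.2 := by
  unfold passD
  rw [if_neg h0]

/-- increments -/
theorem inc_sum (hb : 2 ≤ b) (hR : ∀ l, G.reg l < R) (l : G.L) (hk : G.kind l = Kind.inc)
    (d : ℕ → DD b R) (k : ℕ) :
    ∑ j ∈ range k, newdg G b R hR l (carry G b R hR l d j) (d j) * b ^ j +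
      (if carry G b R hR l d k = true then b ^ k else 0) =
    ∑ j ∈ range k, dg G b R hR l (d j) * b ^ j + 1 := by
  induction k with
  | zero => simp [carry]
  | succ k ih =>
    rw [sum_range_succ, sum_range_succ]
    have hd : dg G b R hR l (d k) < b := ((d k).1 ⟨G.reg l, hR l⟩).2
    have e1 : carry G b R hR l d (k + 1) =
        (carry G b R hR l d k && decide (dg G b R hR l (d k) = b - 1)) := by
      show passC G b R hR l (carry G b R hR l d k) (d k) = _
      unfold passC
      rw [hk]
    have e2 : newdg G b R hR l (carry G b R hR l d k) (d k) =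
        if carry G b R hR l d k = true then
          (if dg G b R hR l (d k) = b - 1 then 0 else dg G b R hR l (d k) + 1)
        else dg G b R hR l (d k) := by
      unfold newdg
      rw [hk]
    rw [e1, e2]
    cases hc : carry G b R hR l d k
    · rw [hc] at ih
      simp only [Bool.false_eq_true, if_false, add_zero, Bool.false_and] at ih ⊢
      rw [ih]
      ring
    · rw [hc] at ih
      simp only [if_true, Bool.true_and, decide_eq_true_iff] at ih ⊢
      by_cases h1 : dg G b R hR l (d k) = b - 1
      · rw [if_pos h1, if_pos h1, h1, zero_mul, add_zero, pow_succ]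
        have h2 : b ^ k * b = (b - 1) * b ^ k + b ^ k := by
          obtain ⟨c, rfl⟩ : ∃ c, b = c + 1 := ⟨b - 1, by omega⟩
          rw [Nat.add_sub_cancel]
          ring
        rw [h2]
        omega
      · rw [if_neg h1, if_neg h1, add_zero, add_mul, one_mul]
        omega

/-- decrements -/
theorem dec_sum (hb : 2 ≤ b) (hR : ∀ l, G.reg l < R) (l : G.L) (hk : G.kind l = Kind.dec)
    (h0 : G.reg l ≠ 0) (d : ℕ → DD b R) (k : ℕ) :
    ∑ j ∈ range k, newdg G b R hR l (carry G b R hR l d j) (d j) * b ^ j + 1 =
    ∑ j ∈ range k, dg G b R hR l (d j) * b ^ j +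
      (if carry G b R hR l d k = true then b ^ k else 0) := by
  induction k with
  | zero => simp [carry]
  | succ k ih =>
    rw [sum_range_succ, sum_range_succ]
    have hd : dg G b R hR l (d k) < b := ((d k).1 ⟨G.reg l, hR l⟩).2
    have e1 : carry G b R hR l d (k + 1) =
        (carry G b R hR l d k && decide (dg G b R hR l (d k) = 0)) := by
      show passC G b R hR l (carry G b R hR l d k) (d k) = _
      unfold passC cellz
      rw [hk, if_neg h0]
    have e2 : newdg G b R hR l (carry G b R hR l d k) (d k) =
        if carry G b R hR l d k = true then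
          (if dg G b R hR l (d k) = 0 then b - 1 else dg G b R hR l (d k) - 1)
        else dg G b R hR l (d k) := by
      unfold newdg
      rw [hk]
    rw [e1, e2]
    cases hc : carry G b R hR l d k
    · rw [hc] at ih
      simp only [Bool.false_eq_true, if_false, add_zero, Bool.false_and] at ih ⊢
      rw [← ih]
      ring
    · rw [hc] at ih
      simp only [if_true, Bool.true_and, decide_eq_true_iff] at ih ⊢
      by_cases h1 : dg G b R hR l (d k) = 0
      · rw [if_pos h1, if_pos h1, h1, zero_mul, add_zero, pow_succ]
        have h2 : b ^ k * b = (b - 1) * b ^ k + b ^ k := by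
          obtain ⟨c, rfl⟩ : ∃ c, b = c + 1 := ⟨b - 1, by omega⟩
          rw [Nat.add_sub_cancel]
          ring
        rw [h2]
        omega
      · rw [if_neg h1, if_neg h1, add_zero]
        have h2 : dg G b R hR l (d k) * b ^ k = (dg G b R hR l (d k) - 1) * b ^ k + b ^ k := by
          obtain ⟨c, hc⟩ : ∃ c, dg G b R hR l (d k) = c + 1 :=
            ⟨dg G b R hR l (d k) - 1, by omega⟩
          rw [hc, Nat.add_sub_cancel]
          ring
        rw [h2]
        omega

/-- the carry for decrements is the zero flag -/
theorem carry_eq_zfl (hR : ∀ l, G.reg l < R) (l : G.L) (hk : G.kind l = Kind.dec)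
    (d : ℕ → DD b R) (k : ℕ) : carry G b R hR l d k = zfl G b R hR l d k := by
  induction k with
  | zero => rfl
  | succ k ih =>
    show passC G b R hR l (carry G b R hR l d k) (d k) = _
    unfold passC
    rw [hk, ih]
    rfl

/-- the invariant is preserved -/
theorem inv_step (hb : 2 ≤ b) (hR : ∀ l, G.reg l < R) (l : G.L) {n : ℕ} {σ : ℕ → ℕ}
    {d : ℕ → DD b R} (h : Inv b R n σ d)
    (hs1 : G.kind l = Kind.inc → G.reg l ≠ 0 ∧ σ (G.reg l) + 1 < b ^ n)
    (hs2 : G.kind l = Kind.dec → σ (G.reg l) ≠ 0) :
    Inv b R n (Function.update σ (G.reg l) ((G.kind l).app (σ (G.reg l))))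
      (fun k => if k < n then passD G b R hb hR l (carry G b R hR l d k) (d k) else d k) := by
  by_cases h0 : G.reg l = 0
  · cases hk : G.kind l with
    | inc => exact absurd h0 (hs1 hk).1
    | test =>
      have e1 : ∀ c (x : DD b R), passD G b R hb hR l c x = x := by
        intro c x
        unfold passD
        rw [if_pos h0, hk]
      have e2 : Function.update σ (G.reg l) (Kind.test.app (σ (G.reg l))) = σ :=
        Function.update_eq_self _ _
      simp only [e1, e2, ite_self]
      exact h
    | dec =>
      have hσ := hs2 hk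
      rw [h0] at hσ
      have e1 : ∀ c (x : DD b R), passD G b R hb hR l c x = (x.1, x.2 && !c) := by
        intro c x
        unfold passD
        rw [if_pos h0, hk]
      have e2 : ∀ k, k ≤ n → (carry G b R hR l d k = true ↔ k + σ 0 ≤ n) := by
        intro k hkn
        rw [carry_eq_zfl hR l hk, zfl_iff]
        simp only [cellz, h0, if_true, Bool.not_eq_true']
        constructor
        · intro h1
          by_contra h2
          have h3 := h1 (k - 1) (by have := h.le; omega)
          have h4 := (h.mark (k - 1) (by have := h.le; omega)).mpr (by omega)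
          rw [h3] at h4
          exact absurd h4 (by simp)
        · intro h1 j hj
          have h2 := h.mark j (by omega)
          by_contra h3
          rw [Bool.not_eq_false] at h3
          have := h2.mp h3
          omega
      have hu0 : Function.update σ (G.reg l) (Kind.dec.app (σ (G.reg l))) 0 = σ 0 - 1 := by
        rw [h0, Function.update_self]
        rfl
      refine ⟨?_, ?_, ?_⟩
      · rw [hu0]
        have := h.le
        omega
      · intro k hkn
        rw [hu0]
        simp only [if_pos hkn, e1, Bool.and_eq_true, Bool.not_eq_true']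
        rw [h.mark k hkn]
        have h2 := e2 k (by omega)
        constructor
        · rintro ⟨h3, h4⟩
          have : ¬ (k + σ 0 ≤ n) := fun h5 => by
            rw [h2.mpr h5] at h4
            exact absurd h4 (by simp)
          omega
        · intro h3
          refine ⟨by omega, ?_⟩
          rw [← Bool.not_eq_true, h2]
          omega
      · intro i hi
        have hne : (i : ℕ) ≠ G.reg l := by rw [h0]; exact hi
        rw [Function.update_of_ne hne, h.digit i hi]
        refine sum_congr rfl fun k hkn => ?_
        rw [if_pos (mem_range.mp hkn), e1]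
  · -- a register in base `b`
    have hu0 : ∀ v, Function.update σ (G.reg l) v 0 = σ 0 := fun v =>
      Function.update_of_ne (fun hh => h0 hh.symm) _ _
    refine ⟨?_, ?_, ?_⟩
    · rw [hu0]
      exact h.le
    · intro k hkn
      rw [hu0]
      simp only [if_pos hkn, passD_mark hb hR l _ _ h0]
      exact h.mark k hkn
    · intro i hi
      have e3 : ∑ k ∈ range n, (((if k < n then
          passD G b R hb hR l (carry G b R hR l d k) (d k) else d k).1 i : Fin b) : ℕ) * b ^ k =
          ∑ k ∈ range n, (if (i : ℕ) = G.reg l then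
            newdg G b R hR l (carry G b R hR l d k) (d k) else ((d k).1 i : ℕ)) * b ^ k := by
        refine sum_congr rfl fun k hkn => ?_
        rw [if_pos (mem_range.mp hkn), passD_digit hb hR l _ _ i hi]
      refine Eq.trans ?_ e3.symm
      by_cases h1 : (i : ℕ) = G.reg l
      · simp only [h1, if_true, Function.update_self]
        have h2 : σ (G.reg l) = ∑ k ∈ range n, dg G b R hR l (d k) * b ^ k :=
          h.digit ⟨G.reg l, hR l⟩ h0
        cases hk : G.kind l with
        | test =>
          have e4 : ∀ c (x : DD b R), newdg G b R hR l c x = dg G b R hR l x := by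
            intro c x
            unfold newdg
            rw [hk]
          simp only [e4]
          exact h2
        | inc =>
          have h3 := inc_sum hb hR l hk d n
          obtain ⟨_, h4⟩ := hs1 hk
          have h5 : carry G b R hR l d n = false := by
            by_contra h6
            rw [Bool.not_eq_false] at h6
            rw [if_pos h6, ← h2] at h3
            omega
          rw [h5] at h3
          simp only [Bool.false_eq_true, if_false, add_zero] at h3
          show σ (G.reg l) + 1 = _
          rw [h3, ← h2]
        | dec =>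
          have h3 := dec_sum hb hR l hk h0 d n
          have h4 := hs2 hk
          have h5 : carry G b R hR l d n = false := by
            by_contra h6
            rw [Bool.not_eq_false] at h6
            rw [if_pos h6, ← h2] at h3
            have h7 := digit_lt_pow hb
              (fun j => newdg G b R hR l (carry G b R hR l d j) (d j))
              (fun j => newdg_lt hb hR l _ _) n
            omega
          rw [h5, ← h2] at h3
          simp only [Bool.false_eq_true, if_false, add_zero] at h3
          show σ (G.reg l) - 1 = _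
          omega
      · rw [Function.update_of_ne h1]
        simp only [if_neg h1]
        exact h.digit i hi

end

/-- Module DIGIT. -/
theorem digit : DigitStatement := by
  intro G l0 b hb
  have := G.finL
  obtain ⟨R, hR'⟩ := (Set.finite_range G.reg).bddAbove
  have hR : ∀ l, G.reg l < R + 1 := fun l => Nat.lt_succ_of_le (hR' ⟨l, rfl⟩)
  refine ⟨mach G b (R + 1) hb hR l0, labF G l0, fun n hn hsafe t => ?_⟩
  have key : ∀ t, labF G l0 (((mach G b (R + 1) hb hR l0).round n)^[t]
        ((mach G b (R + 1) hb hR l0).s0, fun _ => (mach G b (R + 1) hb hR l0).d0)).1 =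
        (G.step^[t] (l0, initReg n)).1 ∧
      Inv b (R + 1) n (G.step^[t] (l0, initReg n)).2
        (((mach G b (R + 1) hb hR l0).round n)^[t]
        ((mach G b (R + 1) hb hR l0).s0, fun _ => (mach G b (R + 1) hb hR l0).d0)).2 := by
    intro t
    induction t with
    | zero =>
      refine ⟨rfl, ⟨le_refl n, fun k hk => ?_, fun i hi => ?_⟩⟩
      · show (true = true) ↔ n ≤ k + n
        simp
      · show initReg n i = ∑ k ∈ range n, (0 : ℕ) * b ^ k
        simp [initReg, hi]
    | succ t ih =>
      obtain ⟨ih1, ih2⟩ := ih
      rw [Function.iterate_succ_apply', Function.iterate_succ_apply']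
      set x := (((mach G b (R + 1) hb hR l0).round n)^[t]
        ((mach G b (R + 1) hb hR l0).s0, fun _ => (mach G b (R + 1) hb hR l0).d0)) with hx
      set y := G.step^[t] (l0, initReg n) with hy
      have hsf := hsafe t
      rw [← hy] at hsf
      have hr := round_eq G b (R + 1) hb hR l0 n x.1 x.2
      have hr' : (mach G b (R + 1) hb hR l0).round n x = _ := hr
      rw [hr', ih1]
      refine ⟨?_, ?_⟩
      · show G.next y.1 (zfl G b (R + 1) hR y.1 x.2 n) = G.next y.1 _
        rw [zfl_eq hb hR y.1 hn ih2]
      · exact inv_step hb hR y.1 ih2 hsf.1 hsf.2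
  exact (key t).1

end Pool.Agent.Lib.MP_2eed13_lc.LCA.H38
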